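import Mathlib
import Pool.Agent.H13.Supp

open Topology Pool.Agent.H13.Supp

namespace Pool.Agent.Results.MP_496bc7_gt.QA

theorem result : ∃ (S X : Type) (_ : Semigroup S) (supp : S → Set X) (x : X),
    Perfect supp ∧ ¬ IsOpen[semiZariski S] {f | x ∈ supp f} := by
  refine ⟨T, ℕ, inferInstance, sp, 0, perfect, fun h => not_open ?_⟩
  letI := tau
  haveI := t2
  haveI := cmul
  exact le_semiZariski (fun a => continuous_const.mul continuous_id)
    (fun a => continuous_id.mul continuous_const) _ h

end Pool.Agent.Results.MP_496bc7_gt.QA
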