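import Mathlib
import Pool.Agent.H13.Supp

open Topology Pool.Agent.H13.Supp

namespace Pool.Agent.Results.MP_496bc7_gt.QB

theorem result : ∃ (S X : Type) (_ : Semigroup S) (supp : S → Set X) (x : X)
    (_ : TopologicalSpace S), Perfect supp ∧ T2Space S ∧ ContinuousMul S ∧
      ¬ IsOpen {f | x ∈ supp f} :=
  ⟨T, ℕ, inferInstance, sp, 0, tau, perfect, t2, cmul, not_open⟩

end Pool.Agent.Results.MP_496bc7_gt.QB
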